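import Pool.Agent.H.MP_cd1425_an.E

open Topology Set

namespace Pool.Agent.Results.MP_94b3e1_an.Separable

theorem result :
    ∀ (𝕂 : Type) [RCLike 𝕂] (X : Type) [NormedAddCommGroup X] [NormedSpace 𝕂 X]
      [CompleteSpace X] [TopologicalSpace.SeparableSpace X] (T : X →L[𝕂] X),
      Dense {x : X | ∀ U ∈ 𝓝 x, ∃ δ : ℝ, 0 < δ ∧ ∀ N : ℕ, 1 ≤ N → ∃ m : ℕ,
          δ * (N : ℝ) ≤ (({n : ℕ | m ≤ n ∧ n < m + N ∧ (T ^ n) x ∈ U}).ncard : ℝ)} →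
      ∃ M : Submodule 𝕂 X, Dense (M : Set X) ∧
        ∀ x ∈ M, ∀ U ∈ 𝓝 x, ∃ δ : ℝ, 0 < δ ∧ ∀ N : ℕ, 1 ≤ N → ∃ m : ℕ,
          δ * (N : ℝ) ≤ (({n : ℕ | m ≤ n ∧ n < m + N ∧ (T ^ n) x ∈ U}).ncard : ℝ) := by
  intro 𝕂 _ X _ _ _ _ T h
  have e (x : X) : H.MP_cd1425_an.RR T x ↔ ∀ U ∈ 𝓝 x, ∃ δ : ℝ, 0 < δ ∧ ∀ N : ℕ, 1 ≤ N → ∃ m : ℕ,
      δ * (N : ℝ) ≤ (({n : ℕ | m ≤ n ∧ n < m + N ∧ (T ^ n) x ∈ U}).ncard : ℝ) :=
    forall₂_congr fun U _ => by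
      simp only [H.MP_cd1425_an.ps_iff, H.MP_cd1425_an.rs, mem_ofPred_eq, FunLike.coe_pow_eq_iterate]
  simp only [← e] at h ⊢
  have := (TopologicalSpace.countable_countableBasis X).to_subtype
  obtain ⟨z, z1, z2⟩ := H.MP_cd1425_an.many T.continuous h (ι := TopologicalSpace.countableBasis X)
    (U := Subtype.val) (fun i => TopologicalSpace.isOpen_of_mem_countableBasis i.2)
    fun i => TopologicalSpace.nonempty_of_mem_countableBasis i.2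
  refine ⟨Submodule.span 𝕂 (range z), (TopologicalSpace.isBasis_countableBasis X).dense_iff.2
    fun o ho _ => ⟨z ⟨o, ho⟩, z1 ⟨o, ho⟩, Submodule.subset_span ⟨_, rfl⟩⟩, fun x hx => ?_⟩
  obtain ⟨c, rfl⟩ := Finsupp.mem_span_range_iff_exists_finsupp.1 hx
  exact z2.map (S := T) (φ := fun v => c.sum fun i a => a • v i) (by unfold Finsupp.sum; fun_prop)
    fun v => by simp [Finsupp.sum]

end Pool.Agent.Results.MP_94b3e1_an.Separable
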